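import Pool.Agent.Lib.MP_c80ac4_an.CN.Final
import Pool.Agent.Lib.MP_c80ac4_an.Curve
import Pool.Agent.Lib.MP_c80ac4_an.Ctbl

/-! # MP_c80ac4_an: which connected sets force boundedness of Hadamard gap series

`IsForcing S`: every function analytic in the unit disc whose power series has Hadamard gaps (some
ratio `q > 1`) and which is bounded on `S` is bounded in the disc. `SidonOn E`: for every `q > 1`
there are `N` and `C` with `∑ |c_n| ≤ C sup_E |∑ c_n z^n|` for all polynomials whose frequencies are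
at least `N` and have gaps of ratio at least `q`. -/

namespace Pool.Agent.Lib.MP_c80ac4_an.Shelf.ConnectedSets

open Metric Set Filter Topology Forcing

/-- The union of the radii of the unit disc that end at the points of `E`. -/
def radialSet (E : Set ℂ) : Set ℂ := {z | ∃ ρ ∈ Ico (0 : ℝ) 1, ∃ ζ ∈ E, z = (ρ : ℂ) * ζ}

lemma radialSet_subset {E : Set ℂ} (hE : E ⊆ sphere 0 1) : radialSet E ⊆ ball 0 1 := by
  rintro z ⟨ρ, hρ, ζ, hζ, rfl⟩
  have h1 : ‖ζ‖ = 1 := by simpa using hE hζ
  rw [mem_ball_zero_iff, norm_mul, h1, mul_one, Complex.norm_real, Real.norm_of_nonneg hρ.1]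
  exact hρ.2

lemma closure_radialSet {E : Set ℂ} (hE : E ⊆ sphere 0 1) (hcl : IsClosed E) :
    closure (radialSet E) ∩ sphere 0 1 = E := by
  have hcomp : IsCompact E := (isCompact_sphere (0 : ℂ) 1).of_isClosed_subset hcl hE
  apply Subset.antisymm
  · rintro z ⟨hz1, hz2⟩
    have hz2' : ‖z‖ = 1 := by simpa using hz2
    have hK : IsCompact ((fun p : ℝ × ℂ => (p.1 : ℂ) * p.2) '' (Icc (0 : ℝ) 1 ×ˢ E)) :=
      (isCompact_Icc.prod hcomp).image (by fun_prop)
    have hsub : radialSet E ⊆ (fun p : ℝ × ℂ => (p.1 : ℂ) * p.2) '' (Icc (0 : ℝ) 1 ×ˢ E) := by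
      rintro w ⟨ρ, hρ, ζ, hζ, rfl⟩
      exact ⟨(ρ, ζ), ⟨⟨hρ.1, hρ.2.le⟩, hζ⟩, rfl⟩
    obtain ⟨⟨ρ, ζ⟩, ⟨hρ, hζ⟩, hz⟩ := closure_minimal hsub hK.isClosed hz1
    simp only at hz hρ hζ
    have h1 : ‖ζ‖ = 1 := by simpa using hE hζ
    have h2 : ρ = 1 := by
      rw [← hz, norm_mul, h1, mul_one, Complex.norm_real, Real.norm_of_nonneg hρ.1] at hz2'
      exact hz2'
    rw [← hz, h2]
    simpa using hζ
  · intro ζ hζ
    refine ⟨?_, hE hζ⟩
    have hlim : Tendsto (fun ρ : ℝ => (ρ : ℂ) * ζ) (𝓝[<] 1) (𝓝 ζ) := by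
      have hc : Continuous fun ρ : ℝ => (ρ : ℂ) * ζ := by fun_prop
      have := (hc.tendsto 1).mono_left (nhdsWithin_le_nhds (s := Iio 1))
      simpa using this
    apply mem_closure_of_tendsto hlim
    filter_upwards [Ioo_mem_nhdsLT (zero_lt_one (α := ℝ))] with ρ hρ
    exact ⟨ρ, ⟨hρ.1.le, hρ.2⟩, ζ, hζ, rfl⟩

lemma radialSet_connected (E : Set ℂ) : IsPreconnected (radialSet E ∪ closedBall 0 0) := by
  have hstar : StarConvex ℝ (0:ℂ) (radialSet E ∪ closedBall 0 0) := by
    rw [starConvex_zero_iff]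
    intro z hz a ha0 ha1
    rcases hz with ⟨ρ, hρ, ζ, hζ, rfl⟩ | hz
    · left
      refine ⟨a * ρ, ⟨mul_nonneg ha0 hρ.1, ?_⟩, ζ, hζ, ?_⟩
      · calc a * ρ ≤ 1 * ρ := mul_le_mul_of_nonneg_right ha1 hρ.1
          _ < 1 := by rw [one_mul]; exact hρ.2
      · rw [Complex.real_smul]
        push_cast
        ring
    · right
      have hz0 : z = 0 := by simpa using hz
      rw [hz0]
      simp
  exact (hstar.isPathConnected (Or.inr (by simp))).isConnected.isPreconnected

/-- **Connected sets.** Let `S` be a subset of the unit disc whose union with some disc `|z| ≤ r`,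
`r < 1` (possibly empty), is connected, and let `E` be the part of the closure of `S` on the unit
circle. Then `S` is forcing iff `E` satisfies the lacunary Sidon inequalities, iff the union of the
radii ending at points of `E` is forcing; this is so if `E` contains an arc and it is not so if `E`
is countable. In particular a curve in the disc that tends to the unit circle is forcing iff it does
not tend to a point. -/
theorem result :
    (∀ (S : Set ℂ) (r : ℝ), S ⊆ ball 0 1 → r < 1 → IsPreconnected (S ∪ closedBall 0 r) →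
      (IsForcing S ↔ SidonOn (closure S ∩ sphere 0 1)) ∧
      (IsForcing S ↔ IsForcing (radialSet (closure S ∩ sphere 0 1))) ∧
      ((∃ α β : ℝ, α < β ∧ ∀ t ∈ Icc α β, Complex.exp (t * Complex.I) ∈ closure S) →
        IsForcing S) ∧
      ((closure S ∩ sphere 0 1).Countable → ¬ IsForcing S)) ∧
    (∀ γ : ℝ → ℂ, ContinuousOn γ (Ico 0 1) → (∀ t ∈ Ico (0 : ℝ) 1, ‖γ t‖ < 1) →
      Tendsto (fun t => ‖γ t‖) (𝓝[<] 1) (𝓝 1) →
      (IsForcing (γ '' Ico 0 1) ↔ ¬ ∃ ζ : ℂ, Tendsto γ (𝓝[<] 1) (𝓝 ζ))) := by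
  refine ⟨?_, fun γ h1 h2 h3 => curve_forcing_iff h1 h2 h3⟩
  intro S r hS hr hconn
  have hmain := connected_forcing_iff hS hr hconn
  set E : Set ℂ := closure S ∩ sphere 0 1 with hE
  have hE1 : E ⊆ sphere 0 1 := inter_subset_right
  have hEcl : IsClosed E := isClosed_closure.inter isClosed_sphere
  refine ⟨hmain, ?_, ?_, ?_⟩
  · rw [hmain, connected_forcing_iff (radialSet_subset hE1) zero_lt_one (radialSet_connected E),
      closure_radialSet hE1 hEcl]
  · rintro ⟨α, β, hαβ, harc⟩
    rw [hmain]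
    intro q hq
    obtain ⟨N, C, hC⟩ := sidonIneq_arc q (β - α) hq (by linarith)
    refine ⟨N, C, (hC α β le_rfl).mono ?_⟩
    rintro z ⟨t, ht, rfl⟩
    refine ⟨harc t ht, ?_⟩
    rw [mem_sphere_zero_iff_norm, Complex.norm_exp_ofReal_mul_I]
  · intro hcount hF
    have hSid := hmain.1 hF
    obtain ⟨N, C, hC⟩ := sidonIneq_of_diff_countable (K := ∅) isClosed_empty hEcl hE1
      (empty_subset _) (by rw [sdiff_empty]; exact hcount) (q := 2) one_lt_two
      (hSid 2 one_lt_two)
    have hLs : LacSet 2 N (({N + 1} : Finset ℕ) : Set ℕ) := by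
      constructor
      · intro m hm
        have : m = N + 1 := by simpa using hm
        omega
      · intro m hm n hn hmn
        have h1 : m = N + 1 := by simpa using hm
        have h2 : n = N + 1 := by simpa using hn
        omega
    have := hC {N + 1} (fun _ => 1) 0 hLs le_rfl (fun z hz => absurd hz (Set.notMem_empty z))
    simp at this
    linarith

end Pool.Agent.Lib.MP_c80ac4_an.Shelf.ConnectedSets
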