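import Pool.Agent.Lib.MP_c80ac4_an.Criterion
import Pool.Agent.Lib.MP_c80ac4_an.Dual

/-!
# A necessary and sufficient condition for arbitrary sets

A subset `S` of the unit disc is forcing for power series with Hadamard gaps if and only if for
every ratio `q > 1` there are `N` and `C` such that every function with `q`-lacunary frequencies
`≥ N` bounded by one on `S` has absolute coefficient sum at most `C` (one bound for all lacunary
sequences of ratio `q` at once), if and only if for every `q > 1` there are `N` and `C` such that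
finitely supported measures on `S` of mass at most `C` interpolate all bounded data on all finite
parts of all `q`-lacunary sets of frequencies `≥ N`.
-/

namespace Pool.Agent.Lib.MP_c80ac4_an.Shelf.InterpolationCriterion

open Forcing Metric Set

/-- **Characterisation of the forcing sets.** -/
theorem result (S : Set ℂ) (hS : S ⊆ ball 0 1) :
    (IsForcing S ↔ ∀ q : ℝ, 1 < q → ∃ (N : ℕ) (C : ℝ), UnifBound q N C S) ∧
    (IsForcing S ↔ ∀ q : ℝ, 1 < q → ∃ (N : ℕ) (C : ℝ), DualInterp q N C S) := by
  have h1 : IsForcing S ↔ ∀ q : ℝ, 1 < q → ∃ (N : ℕ) (C : ℝ), UnifBound q N C S := by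
    rw [isForcing_iff_unif hS]
    constructor
    · intro h q hq
      obtain ⟨N, C, -, hC⟩ := h q hq
      exact ⟨N, C, hC⟩
    · intro h q hq
      obtain ⟨N, C, hC⟩ := h q hq
      exact ⟨N, max C 1, by positivity, fun c h1 h2 h3 h4 s =>
        (hC c h1 h2 h3 h4 s).trans (le_max_left _ _)⟩
  refine ⟨h1, ?_⟩
  constructor
  · intro hF q hq
    obtain ⟨N, C, hC0, hC⟩ := (isForcing_iff_unif hS).1 hF q hq
    exact ⟨N, C, dual_of_unif hq hC0 hS hC⟩
  · intro h
    rw [h1]
    intro q hq
    obtain ⟨N, C, hC⟩ := h q hq
    exact ⟨N, C, unif_of_dual hq hS hC⟩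

end Pool.Agent.Lib.MP_c80ac4_an.Shelf.InterpolationCriterion
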