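import Pool.Agent.Lib.MP_c80ac4_an.Criterion
import Pool.Agent.Lib.MP_c80ac4_an.HSet

/-!
# Power images of the boundary part of a forcing set

Let `S` be a forcing subset of the unit disc and `E = closure S ∩ T`. Then the sets
`{z ^ m : z ∈ E}` converge to the whole circle as `m → ∞`: `E` is not contained in an `H`-set, in
a proper closed subset of the circle invariant under some `z ↦ z ^ p`, or in the ternary Cantor set.
The reason is a zero-one law: if for some `q > 1` and `γ < 1` the constant one is on `E`, up to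
arbitrarily small errors, a `q`-lacunary polynomial with large frequencies plus a trigonometric
polynomial with absolute coefficient sum at most `γ`, then for every ratio `q' < q` it is a uniform
limit on `E` of `q'`-lacunary polynomials with large frequencies, and `S` is not forcing; and this
hypothesis holds as soon as infinitely many power images of `E` miss a fixed arc.
-/

namespace Pool.Agent.Lib.MP_c80ac4_an.Shelf.PowerImagesOld

open Forcing Forcing.HS Metric Set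

/-- **Power images.** -/
theorem result :
    -- the zero-one law
    (∀ (E : Set ℂ) (q γ : ℝ), E ⊆ sphere 0 1 → 1 < q → γ < 1 → TwoSided E q γ →
      (∀ q' : ℝ, 1 < q' → q' < q → ∀ (N : ℕ) (ε : ℝ), 0 < ε → ∃ (s : Finset ℕ) (c : ℕ → ℂ),
        LacSet q' N (s : Set ℕ) ∧ ∀ z ∈ E, ‖1 - ∑ n ∈ s, c n * z ^ n‖ ≤ ε) ∧
      ∀ S : Set ℂ, S ⊆ ball 0 1 → closure S ∩ sphere 0 1 ⊆ E → ¬ IsForcing S) ∧
    -- its hypothesis holds if infinitely many power images miss a fixed arc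
    (∀ (w : ℂ) (η : ℝ), ‖w‖ = 1 → 0 < η → ∃ q γ : ℝ, 1 < q ∧ γ < 1 ∧
      ∀ E : Set ℂ, E ⊆ sphere 0 1 → (∀ N : ℕ, ∃ m ≥ N, ∀ z ∈ E, η ≤ ‖z ^ m - w‖) →
        TwoSided E q γ) ∧
    -- so the power images of the boundary part of a forcing set converge to the circle
    (∀ S : Set ℂ, S ⊆ ball 0 1 → IsForcing S → ∀ ε : ℝ, 0 < ε → ∃ N : ℕ, ∀ m ≥ N,
      ∀ w : ℂ, ‖w‖ = 1 → ∃ z ∈ closure S, ‖z‖ = 1 ∧ ‖z ^ m - w‖ < ε) ∧
    -- proper closed invariant sets
    (∀ E : Set ℂ, IsClosed E → E ⊆ sphere 0 1 → E ≠ sphere 0 1 →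
      (∃ p : ℕ, 2 ≤ p ∧ ∀ z ∈ E, z ^ p ∈ E) →
        ∀ S : Set ℂ, S ⊆ ball 0 1 → closure S ∩ sphere 0 1 ⊆ E → ¬ IsForcing S) ∧
    -- the ternary Cantor set
    (∀ S : Set ℂ, S ⊆ ball 0 1 →
      (∀ z ∈ closure S, ‖z‖ = 1 → ∃ x ∈ cantorSet, z = Complex.exp (2 * Real.pi * x * Complex.I)) →
        ¬ IsForcing S) := by
  refine ⟨?_, ?_, ?_, ?_, ?_⟩
  · intro E q γ hE hq hγ hT
    refine ⟨fun q' h1 h2 N ε hε => ?_, fun S hS hSE hF => ?_⟩
    · obtain ⟨s, c, h3, h4⟩ := good_zero hE hT hγ q' h1 h2 N ε hε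
      exact ⟨s, c, h3, fun z hz => by simpa using h4 z hz⟩
    · exact not_sidonOn_of_twoSided hE hq hT hγ ((sidonOn_of_forcing hS hF).mono hSE)
  · intro w η hw hη
    obtain ⟨s, h, γ, -, h2, h3⟩ := approx_arc hw hη
    refine ⟨1 + 1 / ((s : ℝ) + 1), γ, ?_, h2, fun E hE hm => ?_⟩
    · have : (0 : ℝ) < 1 / ((s : ℝ) + 1) := by positivity
      linarith
    · refine twoSided_of_approx h3 fun N => ?_
      obtain ⟨m, hmN, hm⟩ := hm N
      refine ⟨m, hmN, fun z hz => ⟨?_, hm z hz⟩⟩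
      have hz1 : ‖z‖ = 1 := by simpa using hE hz
      rw [norm_pow, hz1, one_pow]
  · intro S hS hF ε hε
    obtain ⟨N, hN⟩ := dense_powers inter_subset_right (sidonOn_of_forcing hS hF) hε
    refine ⟨N, fun m hm w hw => ?_⟩
    obtain ⟨z, hz, hz1⟩ := hN m hm w hw
    exact ⟨z, hz.1, by simpa using hz.2, hz1⟩
  · rintro E hcl hE hne ⟨p, hp, hinv⟩ S hS hSE hF
    exact hne ((sidonOn_invariant_iff hcl hE hp hinv).1 ((sidonOn_of_forcing hS hF).mono hSE))
  · intro S hS hSE hF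
    refine not_sidonOn_cantorCircle ((sidonOn_of_forcing hS hF).mono ?_)
    rintro z ⟨hz1, hz2⟩
    obtain ⟨x, hx, rfl⟩ := hSE z hz1 (by simpa using hz2)
    exact ⟨x, hx, rfl⟩

end Pool.Agent.Lib.MP_c80ac4_an.Shelf.PowerImagesOld
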